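import Mathlib

set_option autoImplicit false

namespace Pool.Agent.Results.MP_11d8b4_co.Counter

open SimpleGraph

/-- A path system: one simple path for each pair, the same in both directions. -/
def IsPathSystem {V : Type} (G : SimpleGraph V) (P : ∀ u v, G.Walk u v) : Prop :=
  (∀ u v, (P u v).IsPath) ∧ ∀ u v, P v u = (P u v).reverse

/-- For distinct `x, y` on `P u v`, the chosen path between them is a subpath of `P u v`. -/
def Consistent {V : Type} (G : SimpleGraph V) (P : ∀ u v, G.Walk u v) : Prop :=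
  ∀ u v x y, u ≠ v → x ≠ y → x ∈ (P u v).support → y ∈ (P u v).support →
    (P x y).IsSubwalk (P u v) ∨ (P y x).IsSubwalk (P u v)

/-- The weight of a walk: the sum of the weights of its edges. -/
def weight {V : Type} {G : SimpleGraph V} (w : Sym2 V → ℝ) {u v : V} (p : G.Walk u v) : ℝ :=
  (p.edges.map w).sum

/-- Each `P u v` is the unique simple `u`-`v` path of minimum weight. -/
def SimplyInduces {V : Type} (G : SimpleGraph V) (w : Sym2 V → ℝ) (P : ∀ u v, G.Walk u v) : Prop :=
  ∀ u v, u ≠ v → ∀ q : G.Walk u v, q.IsPath → q ≠ P u v → weight w (P u v) < weight w q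

def tab : List (List ℤ) :=
  [[0, 0, 10, 0, 18, 0, -4], [0, 0, 13, 19, 14, 21, 0], [10, 13, 0, 0, 0, 0, 24],
   [0, 19, 0, 0, 12, 0, 22], [18, 14, 0, 12, 0, 0, 0], [0, 21, 0, 0, 0, 0, 20],
   [-4, 0, 24, 22, 0, 20, 0]]

def f (u v : Fin 7) : ℤ := (tab.getD u.val []).getD v.val 0

lemma f_symm : ∀ u v, f u v = f v u := by decide

def G7 : SimpleGraph (Fin 7) where
  Adj u v := f u v ≠ 0
  symm := ⟨by decide⟩
  loopless := ⟨by decide⟩

instance : DecidableRel G7.Adj := fun u v => inferInstanceAs (Decidable (f u v ≠ 0))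

def up : List (List (List (Fin 7))) :=
  [[[0], [0, 2, 1], [0, 2], [0, 6, 3], [0, 4], [0, 6, 5], [0, 6]],
   [[], [1], [1, 2], [1, 3], [1, 4], [1, 5], [1, 2, 0, 6]],
   [[], [], [2], [2, 0, 6, 3], [2, 1, 4], [2, 0, 6, 5], [2, 0, 6]],
   [[], [], [], [3], [3, 4], [3, 1, 5], [3, 6]],
   [[], [], [], [], [4], [4, 0, 6, 5], [4, 0, 6]],
   [[], [], [], [], [], [5], [5, 6]],
   [[], [], [], [], [], [], [6]]]

def L (u v : Fin 7) : List (Fin 7) :=
  if u ≤ v then (up.getD u.val []).getD v.val [] else ((up.getD v.val []).getD u.val []).reverse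

lemma exW (l : List (Fin 7)) : ∀ u v : Fin 7, (u :: l).IsChain G7.Adj →
    (u :: l).getLast? = some v → ∃ p : G7.Walk u v, p.support = u :: l := by
  induction l with
  | nil =>
    intro u v _ h
    obtain rfl : u = v := by simpa using h
    exact ⟨Walk.nil, rfl⟩
  | cons a l ih =>
    intro u v h1 h2
    rw [List.isChain_cons_cons] at h1
    obtain ⟨p, hp⟩ := ih a v h1.2 (by simpa [List.getLast?_cons_cons] using h2)
    exact ⟨Walk.cons h1.1 p, by simp [hp]⟩

lemma exL (u v : Fin 7) (l : List (Fin 7)) (h0 : l = u :: l.tail) (h1 : l.IsChain G7.Adj)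
    (h2 : l.getLast? = some v) : ∃ p : G7.Walk u v, p.support = l := by
  rw [h0] at h1 h2 ⊢
  exact exW _ u v h1 h2

lemma exP (u v : Fin 7) : ∃ p : G7.Walk u v, p.support = L u v :=
  exL u v _ (by revert u v; decide) (by revert u v; decide) (by revert u v; decide)

def wl {R : Type} [AddMonoid R] (g : Fin 7 → Fin 7 → R) : List (Fin 7) → R
  | a :: b :: l => g a b + wl g (b :: l)
  | _ => 0

lemma weight_eq (w : Sym2 (Fin 7) → ℝ) {u v : Fin 7} (p : G7.Walk u v) :
    weight w p = wl (fun a b => w s(a, b)) p.support := by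
  induction p with
  | nil => simp [weight, wl]
  | cons h p ih =>
    unfold weight at ih ⊢
    rw [Walk.edges_cons, List.map_cons, List.sum_cons, ih, Walk.support_cons,
      ← p.cons_tail_support]
    rfl

lemma wl_cast : ∀ l : List (Fin 7), wl (fun a b => (f a b : ℝ)) l = ((wl f l : ℤ) : ℝ)
  | [] => by simp [wl]
  | [_] => by simp [wl]
  | a :: b :: l => by simp [wl, wl_cast (b :: l)]

def gen : ℕ → List (List (Fin 7))
  | 0 => (List.finRange 7).map fun a => [a]
  | k + 1 => (gen k).flatMap fun l =>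
      ((List.finRange 7).filter fun a => f a (l.headD 0) ≠ 0 ∧ a ∉ l).map fun a => a :: l

lemma mem_gen {u v : Fin 7} (p : G7.Walk u v) (hp : p.IsPath) : p.support ∈ gen p.length := by
  induction p with
  | nil => simp [gen]
  | @cons a b c h p ih =>
    rw [Walk.cons_isPath_iff] at hp
    rw [Walk.length_cons, Walk.support_cons, gen, List.mem_flatMap]
    refine ⟨p.support, ih hp.1, List.mem_map.mpr ⟨a, ?_, rfl⟩⟩
    rw [List.mem_filter]
    refine ⟨List.mem_finRange _, decide_eq_true ⟨?_, hp.2⟩⟩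
    rw [← p.cons_tail_support]
    exact h

lemma chk : ∀ k < 7, ∀ l ∈ gen k, l = L (l.headD 0) (l.getLastD 0) ∨
    wl f (L (l.headD 0) (l.getLastD 0)) < wl f l := by
  decide +kernel

lemma cons_chk : ∀ u v x y : Fin 7, x ∈ L u v → y ∈ L u v → L x y <:+: L u v ∨ L y x <:+: L u v := by
  decide +kernel

theorem result :
    ∃ (G : SimpleGraph (Fin 7)) (P : ∀ u v, G.Walk u v), G.Connected ∧ IsPathSystem G P ∧
      Consistent G P ∧ (∃ w : Sym2 (Fin 7) → ℝ, SimplyInduces G w P) ∧
      ¬ ∃ w : Sym2 (Fin 7) → ℝ, (∀ e ∈ G.edgeSet, 0 < w e) ∧ SimplyInduces G w P := by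
  choose P hP using exP
  refine ⟨G7, P, ⟨fun u v => ⟨P u v⟩⟩, ⟨fun u v => ?_, fun u v => ?_⟩, ?_, ?_, ?_⟩
  · rw [Walk.isPath_def, hP]; revert u v; decide
  · apply Walk.ext_support
    rw [Walk.support_reverse, hP, hP]; revert u v; decide
  · intro u v x y _ _ hx hy
    rw [hP] at hx hy
    simpa only [Walk.isSubwalk_iff_support_isInfix, hP] using cons_chk u v x y hx hy
  · refine ⟨Sym2.lift ⟨fun a b => (f a b : ℝ), fun a b => by simp only [f_symm a b]⟩, ?_⟩
    intro u v _ q hq hne
    simp only [weight_eq, Sym2.lift_mk, wl_cast, hP, Int.cast_lt]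
    have h1 : q.support.headD 0 = u := by rw [← q.cons_tail_support]; rfl
    have h2 : q.support.getLastD 0 = v := by
      rw [List.getLastD_eq_getLast?, List.getLast?_eq_some_getLast q.support_ne_nil,
        Walk.getLast_support]
      rfl
    have h := chk q.length (by simpa using hq.length_lt) _ (mem_gen q hq)
    rw [h1, h2] at h
    exact h.resolve_left fun e => hne (Walk.ext_support (e.trans (hP u v).symm))
  · rintro ⟨w, hpos, hw⟩
    have key : ∀ (u v : Fin 7) (l : List (Fin 7)), u ≠ v → l = u :: l.tail → l.IsChain G7.Adj →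
        l.getLast? = some v → l.Nodup → l ≠ L u v →
        wl (fun a b => w s(a, b)) (L u v) < wl (fun a b => w s(a, b)) l := by
      intro u v l huv h0 h1 h2 h3 h4
      obtain ⟨q, hq⟩ := exL u v l h0 h1 h2
      have := hw u v huv q (by rw [Walk.isPath_def, hq]; exact h3)
        (fun e => h4 (by rw [← hq, e, hP]))
      rwa [weight_eq, weight_eq, hP, hq] at this
    have k1 := key 2 4 [2, 0, 4] (by decide) rfl (by decide) rfl (by decide) (by decide)
    have k2 := key 3 5 [3, 6, 5] (by decide) rfl (by decide) rfl (by decide) (by decide)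
    have k3 := key 2 3 [2, 1, 3] (by decide) rfl (by decide) rfl (by decide) (by decide)
    have k4 := key 4 5 [4, 1, 5] (by decide) rfl (by decide) rfl (by decide) (by decide)
    rw [show L 2 4 = [2, 1, 4] by decide] at k1
    rw [show L 3 5 = [3, 1, 5] by decide] at k2
    rw [show L 2 3 = [2, 0, 6, 3] by decide] at k3
    rw [show L 4 5 = [4, 0, 6, 5] by decide] at k4
    simp only [wl] at k1 k2 k3 k4
    have p06 := hpos s(0, 6) (by rw [mem_edgeSet]; decide)
    rw [Sym2.eq_swap (a := 0) (b := 4)] at k1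
    rw [Sym2.eq_swap (a := 1) (b := 4)] at k1
    rw [Sym2.eq_swap (a := 3) (b := 1), Sym2.eq_swap (a := 3) (b := 6)] at k2
    linarith

end Pool.Agent.Results.MP_11d8b4_co.Counter
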